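import Pool.Agent.MP_8c130c_co.Deep

namespace Pool.Agent.Results.MP_8c130c_co.DeepPoints

open Pool.Agent.MP_8c130c_co Pointwise

/-- In every dimension `d` there is a constant `D` such that, for every Delzant lattice polytope
`P` and every lattice point `z` of `t P`: if `z / t` has lattice distance zero or at least `D`
from each facet of `P`, then `z` is a sum of `t` lattice points of `P`. -/
theorem result (d : ℕ) : ∃ D : ℝ, ∀ P : Set (Fin d → ℝ), IsLatticePolytope P → IsDelzant P →
    ∀ t : ℕ, 1 ≤ t → ∀ z : Fin d → ℤ, toReal z ∈ (t : ℝ) • P →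
      (∀ (u : Fin d → ℤ) (r : ℝ), IsFacetIneq P u r → toReal u ⬝ᵥ toReal z = t * r ∨
        t * (r + D) ≤ toReal u ⬝ᵥ toReal z) →
      ∃ x : Fin t → Fin d → ℤ, (∀ j, toReal (x j) ∈ P) ∧ z = ∑ j, x j :=
  Deep.deep d

end Pool.Agent.Results.MP_8c130c_co.DeepPoints
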