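import Pool.Agent.Mg.F8c130c.Gddc2e8

namespace Pool.Agent.Results.MP_8c130c_co.OdaDimThree

open Pool.Agent.MP_8c130c_co

/-- Oda's conjecture in dimension three: every three-dimensional Delzant lattice polytope is IDP,
whatever its lattice width. In particular Q1 holds for `d = 3`, with any constant `N(3)`. -/
theorem result :
    ∀ P : Set (Fin 3 → ℝ), IsLatticePolytope P → IsDelzant P → IsIDP P :=
  oda_three

end Pool.Agent.Results.MP_8c130c_co.OdaDimThree
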