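import Pool.Agent.MP_8c130c_co.Shift

namespace Pool.Agent.Results.MP_8c130c_co.ShiftedCubes

open Pool.Agent.MP_8c130c_co

/-- In every dimension, a Delzant lattice polytope is IDP as soon as at each vertex the unit
parallelepiped of the edge directions, shifted backwards along the edges, lies in the interior of
the polytope with all facets pushed out by one. Shift zero covers all deeply smooth polytopes. -/
theorem result (d : ℕ) (P : Set (Fin d → ℝ)) (hP : IsLatticePolytope P) (hD : IsDelzant P)
    (hS : HasShiftedCubes P) : IsIDP P :=
  Shift.isIDP_of_shiftedCubes P hP hD hS

end Pool.Agent.Results.MP_8c130c_co.ShiftedCubes
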