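import Pool.Agent.Mg.F8c130c.G0a4521

namespace Pool.Agent.Results.MP_8c130c_co.WidthBoundImpliesOda

open Pool.Agent.MP_8c130c_co

/-- If the width bound `N(d+1)` of Q1 exists in dimension `d+1`, then Oda's conjecture holds in
dimension `d`: every `d`-dimensional Delzant lattice polytope is IDP. -/
theorem result (d : ℕ)
    (hN : ∃ N : ℝ, ∀ P : Set (Fin (d + 1) → ℝ), IsLatticePolytope P → IsDelzant P →
      N ≤ latticeWidth P → IsIDP P) :
    ∀ Q : Set (Fin d → ℝ), IsLatticePolytope Q → IsDelzant Q → IsIDP Q :=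
  hN.elim fun N h => oda_of_width_bound d N h

end Pool.Agent.Results.MP_8c130c_co.WidthBoundImpliesOda
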